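import Pool.Agent.Run7.h156.CX.Gen

/-!
# The explicit bound for blocks with two variables
-/

set_option autoImplicit false

open Finset Filter

namespace Run7.h156.CX

open Run7.h156.CR

theorem big_pow {A r : ℕ} (hA : 1 ≤ A) (hr : 1 ≤ r) :
    5 * 10 ^ 6 * A * 4 ^ (8000 * A * r - 1) * (7 * 10 ^ 6 * A * r ^ 2) ≤ 2 ^ (17000 * A * r) := by
  have h1 : 5 * 10 ^ 6 * (7 * 10 ^ 6) ≤ 2 ^ 46 := by norm_num
  have h2 : A ^ 2 ≤ 2 ^ (2 * A) := by
    rw [mul_comm, pow_mul]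
    exact Nat.pow_le_pow_left Nat.lt_two_pow_self.le _
  have h3 : r ^ 2 ≤ 2 ^ (2 * r) := by
    rw [mul_comm, pow_mul]
    exact Nat.pow_le_pow_left Nat.lt_two_pow_self.le _
  have h4 : 4 ^ (8000 * A * r - 1) ≤ 2 ^ (16000 * (A * r)) := by
    calc 4 ^ (8000 * A * r - 1) ≤ 4 ^ (8000 * A * r) :=
          Nat.pow_le_pow_right (by norm_num) (Nat.sub_le _ _)
      _ = (2 ^ 2) ^ (8000 * (A * r)) := by
          congr 1
          ring
      _ = 2 ^ (16000 * (A * r)) := by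
          rw [← pow_mul]
          congr 1
          ring
  have h7 : A ≤ A * r := Nat.le_mul_of_pos_right _ hr
  have h8 : r ≤ A * r := Nat.le_mul_of_pos_left _ hA
  have h9 : 17000 * A * r = 17000 * (A * r) := by ring
  calc 5 * 10 ^ 6 * A * 4 ^ (8000 * A * r - 1) * (7 * 10 ^ 6 * A * r ^ 2)
      = (5 * 10 ^ 6 * (7 * 10 ^ 6)) * A ^ 2 * r ^ 2 * 4 ^ (8000 * A * r - 1) := by ring
    _ ≤ 2 ^ 46 * 2 ^ (2 * A) * 2 ^ (2 * r) * 2 ^ (16000 * (A * r)) := by gcongr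
    _ = 2 ^ (46 + 2 * A + 2 * r + 16000 * (A * r)) := by
        rw [pow_add, pow_add, pow_add]
    _ ≤ _ := Nat.pow_le_pow_right (by norm_num) (by omega)

variable {P I ι X : Type} [Fintype P] [Fintype I] [DecidableEq I] [Fintype ι] [DecidableEq ι]
  (W : Blocks P I ι X)

/-- **The explicit bound.** -/
theorem explicit {Z Ω : Type} [Fintype Z] [Fintype Ω] {A κ θ b r : ℕ} (hA : 1 ≤ A)
    (hM : Fintype.card ι ^ 2 ≤ A * (Fintype.card P * Fintype.card I))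
    (hm : Fintype.card ι ≤ A * Fintype.card I) (hn : 1 ≤ Fintype.card ι)
    (hr : 1 ≤ r) (hb : 1 ≤ b)
    (μ : Ω → ℝ) (hμ0 : ∀ ω, 0 ≤ μ ω) (hμ1 : ∑ ω, μ ω = 1)
    (C : Ω → WordCircuit ι X Z)
    (hκ : ∀ ω, (C ω).FanIn κ) (hθ : ∀ ω, (C ω).TreewidthLE θ)
    (hL : Fintype.card Z ≤ 2 ^ b)
    (hR : ∑ ω, μ ω * (C ω).reads ≤ r * (Fintype.card ι : ℝ)) (a : Bool)
    (hyes : ∀ π x y i, i ∈ x → i ∈ y →
      ∑ ω, μ ω * ind ((C ω).answer (W.inp π x y) = a) ≤ 1 / 3)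
    (hno : ∀ π x y, Disjoint x y →
      2 / 3 ≤ ∑ ω, μ ω * ind ((C ω).answer (W.inp π x y) = a)) :
    Fintype.card ι ≤ 2 ^ (17000 * A * r) * ((κ + 1) * (θ + 1) * b) := by
  classical
  by_contra hcon
  push Not at hcon
  obtain ⟨n, hnd⟩ : ∃ n, n = Fintype.card ι := ⟨_, rfl⟩
  obtain ⟨m, hmd⟩ : ∃ m, m = Fintype.card I := ⟨_, rfl⟩
  obtain ⟨p, hpd⟩ : ∃ p, p = Fintype.card P := ⟨_, rfl⟩
  obtain ⟨M, hMd⟩ : ∃ M, M = p * m := ⟨_, rfl⟩
  rw [← hnd, ← hmd, ← hpd, ← hMd] at hM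
  rw [← hnd, ← hmd] at hm
  rw [← hnd] at hcon hn hR
  have hAM : 1 ≤ A * M := le_trans (Nat.one_le_pow _ _ hn) hM
  have hM1 : 1 ≤ M := Nat.pos_of_mul_pos_left (Nat.succ_le_iff.1 hAM)
  have hp1 : 1 ≤ p := by
    rw [hMd] at hM1
    exact Nat.pos_of_mul_pos_right (Nat.succ_le_iff.1 hM1)
  have hm1 : 1 ≤ m := by
    rw [hMd] at hM1
    exact Nat.pos_of_mul_pos_left (Nat.succ_le_iff.1 hM1)
  -- the parameters
  obtain ⟨r', hr'⟩ : ∃ r', r' = 8000 * A * r - 1 := ⟨_, rfl⟩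
  obtain ⟨w, hw⟩ : ∃ w, w = M / (4000 * r * n) := ⟨_, rfl⟩
  obtain ⟨lam, hlam⟩ : ∃ lam, lam = 5 * 4 ^ r' := ⟨_, rfl⟩
  obtain ⟨m₀, hm₀⟩ : ∃ m₀, m₀ = m / (100 * lam) := ⟨_, rfl⟩
  obtain ⟨s₀, hs₀⟩ : ∃ s₀, s₀ = 3 * 10 ^ 6 * A * r ^ 2 := ⟨_, rfl⟩
  obtain ⟨b₀, hb₀⟩ : ∃ b₀, b₀ = s₀ * (2 * (θ + 1)) + 1 := ⟨_, rfl⟩
  obtain ⟨R, hRd⟩ : ∃ R, R = 40 * r * n := ⟨_, rfl⟩
  obtain ⟨Y, hY⟩ : ∃ Y, Y = (κ + 1) * b₀ * b := ⟨_, rfl⟩
  have hAr : 1 ≤ A * r := Nat.mul_pos hA hr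
  have hr1 : r' + 1 = 8000 * A * r := by
    have : 8000 * A * r = 8000 * (A * r) := by ring
    omega
  have hlam1 : 5 ≤ lam := by
    rw [hlam]
    have : 1 ≤ 4 ^ r' := Nat.one_le_pow _ _ (by norm_num)
    omega
  have hAr2 : 1 ≤ A * r ^ 2 := Nat.mul_pos hA (Nat.pow_pos hr)
  have hs₀1 : 1 ≤ s₀ := by
    rw [hs₀]
    have : 3 * 10 ^ 6 * A * r ^ 2 = 3 * 10 ^ 6 * (A * r ^ 2) := by ring
    omega
  have hb₀1 : 1 ≤ b₀ := by omega
  have hY1 : 1 ≤ Y := by
    rw [hY]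
    exact Nat.mul_pos (Nat.mul_pos (Nat.succ_pos _) hb₀1) hb
  -- the assumption
  have hAs : 10 ^ 6 * A * lam * Y ≤ n := by
    have e1 : b₀ ≤ 7 * 10 ^ 6 * A * r ^ 2 * (θ + 1) := by
      have h1 : 1 ≤ A * r ^ 2 * (θ + 1) := Nat.mul_pos hAr2 (Nat.succ_pos _)
      calc b₀ = 6 * 10 ^ 6 * (A * r ^ 2 * (θ + 1)) + 1 := by rw [hb₀, hs₀]; ring
        _ ≤ 7 * 10 ^ 6 * (A * r ^ 2 * (θ + 1)) := by omega
        _ = _ := by ring
    calc 10 ^ 6 * A * lam * Y = 5 * 10 ^ 6 * A * 4 ^ r' * ((κ + 1) * b₀ * b) := by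
          rw [hlam, hY]
          ring
      _ ≤ 5 * 10 ^ 6 * A * 4 ^ r' * ((κ + 1) * (7 * 10 ^ 6 * A * r ^ 2 * (θ + 1)) * b) := by
          gcongr
      _ = (5 * 10 ^ 6 * A * 4 ^ r' * (7 * 10 ^ 6 * A * r ^ 2)) * ((κ + 1) * (θ + 1) * b) := by ring
      _ ≤ 2 ^ (17000 * A * r) * ((κ + 1) * (θ + 1) * b) := by
          rw [hr']
          exact Nat.mul_le_mul_right _ (big_pow hA hr)
      _ ≤ n := hcon.le
  have hlm : 10 ^ 6 * lam * Y ≤ m := by
    have : A * (10 ^ 6 * lam * Y) ≤ A * m := by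
      refine le_trans (le_of_eq ?_) (hAs.trans hm)
      ring
    exact Nat.le_of_mul_le_mul_left this hA
  have hn4 : 4000 * r * A ≤ n := by
    have e1 : r' < 4 ^ r' := Nat.lt_pow_self (by norm_num)
    have e2 : r * A ≤ r' := by
      have : 8000 * A * r = 8000 * (A * r) := by ring
      have : r * A = A * r := mul_comm _ _
      omega
    calc 4000 * r * A = 4000 * (r * A) := by ring
      _ ≤ 4000 * r' := by gcongr
      _ ≤ 4000 * 4 ^ r' := Nat.mul_le_mul_left _ e1.le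
      _ ≤ 10 ^ 6 * 1 * lam * 1 := by
          rw [hlam]
          omega
      _ ≤ 10 ^ 6 * A * lam * Y := by gcongr
      _ ≤ n := hAs
  have hD0 : 0 < 4000 * r * n := by
    have : 0 < r * n := Nat.mul_pos hr hn
    have : 4000 * r * n = 4000 * (r * n) := by ring
    omega
  have hMn : 4000 * r * n ≤ M := by
    have : A * (4000 * r * n) ≤ A * M := by
      calc A * (4000 * r * n) = 4000 * r * A * n := by ring
        _ ≤ n * n := Nat.mul_le_mul_right _ hn4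
        _ = n ^ 2 := by ring
        _ ≤ A * M := hM
    exact Nat.le_of_mul_le_mul_left this hA
  have hw1 : 1 ≤ w := by
    rw [hw, Nat.le_div_iff_mul_le hD0]
    omega
  have hw2 : w * (4000 * r * n) ≤ M := by
    rw [hw]
    exact Nat.div_mul_le_self _ _
  have hw3 : M ≤ 8000 * r * n * w := by
    have h1 := Nat.lt_mul_div_succ M hD0
    rw [← hw] at h1
    have h2 : 4000 * r * n * (w + 1) ≤ 4000 * r * n * (2 * w) :=
      Nat.mul_le_mul_left _ (by omega)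
    calc M ≤ 4000 * r * n * (2 * w) := h1.le.trans h2
      _ = _ := by ring
  have hnw : n ≤ 8000 * A * r * w := by
    have : n * n ≤ n * (8000 * A * r * w) := by
      calc n * n = n ^ 2 := by ring
        _ ≤ A * M := hM
        _ ≤ A * (8000 * r * n * w) := Nat.mul_le_mul_left _ hw3
        _ = _ := by ring
    exact Nat.le_of_mul_le_mul_left this hn
  have hs : ∀ t, w * t ≤ 8 * R + w → t ≤ s₀ := by
    intro t ht
    have h1 : w * t ≤ w * s₀ := by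
      calc w * t ≤ 8 * R + w := ht
        _ = 8 * (40 * r * n) + w := by rw [hRd]
        _ ≤ 8 * (40 * r * (8000 * A * r * w)) + w := by gcongr
        _ = w * (2560000 * (A * r ^ 2) + 1) := by ring
        _ ≤ w * s₀ := by
            refine Nat.mul_le_mul_left _ ?_
            rw [hs₀]
            calc _ ≤ 3 * 10 ^ 6 * (A * r ^ 2) := by omega
              _ = _ := by ring
    exact Nat.le_of_mul_le_mul_left h1 hw1
  have hm₀1 : 10 ^ 4 * Y ≤ m₀ := by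
    rw [hm₀, Nat.le_div_iff_mul_le (by omega)]
    refine le_trans (le_of_eq ?_) hlm
    ring
  have hm₀2 : m₀ * (100 * lam) ≤ m := by
    rw [hm₀]
    exact Nat.div_mul_le_self _ _
  have key := random_circuits W μ hμ0 hμ1 C hκ hθ hL (Nat.one_le_two_pow) (R := R) (w := w)
    (s₀ := s₀) (b₀ := b₀)
    (by
      rw [hRd]
      exact Nat.mul_pos (by omega) hn)
    (by
      rw [hRd]
      push_cast
      linarith) hs hb₀ r' lam m₀ (by rw [← hpd]; exact hp1) (by rw [← hmd]; exact hm1) a hyes hno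
  rw [← hnd, ← hmd, ← hpd, ← hMd] at key
  have hmR : (0:ℝ) < m := by exact_mod_cast hm1
  have hMR : (0:ℝ) < M := by exact_mod_cast hM1
  have hAR : (0:ℝ) < A := by exact_mod_cast hA
  have hrR : (0:ℝ) < r := by exact_mod_cast hr
  have t1 : 16 * (((2 ^ b : ℕ) : ℝ)) ^ ((κ + 1) * b₀) * Real.exp (-(m₀ / 320 : ℝ)) ≤ 1 / 100 := by
    have e1 : (((2 ^ b : ℕ) : ℝ)) ^ ((κ + 1) * b₀) ≤ Real.exp Y := by
      rw [Nat.cast_pow, ← pow_mul, show b * ((κ + 1) * b₀) = Y by rw [hY]; ring, Nat.cast_ofNat]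
      calc (2:ℝ) ^ Y ≤ (Real.exp 1) ^ Y := by
            refine pow_le_pow_left₀ (by norm_num) ?_ _
            have := Real.exp_one_gt_d9
            linarith
        _ = Real.exp Y := by rw [← Real.exp_nat_mul, mul_one]
    have e2 : (10000 : ℝ) * Y ≤ m₀ := by
      have : 10000 * Y ≤ m₀ := by
        refine le_trans (le_of_eq ?_) hm₀1
        norm_num
      exact_mod_cast this
    have e3 : (1:ℝ) ≤ Y := by exact_mod_cast hY1
    have e4 : Real.exp Y * Real.exp (-(m₀ / 320 : ℝ)) ≤ Real.exp (-8) := by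
      rw [← Real.exp_add]
      apply Real.exp_le_exp.2
      linarith
    have e5 : Real.exp (-8) ≤ 1 / 1600 := by
      rw [Real.exp_neg, ← one_div]
      apply one_div_le_one_div_of_le (by norm_num)
      have e6 : (2.7 : ℝ) ^ 8 ≤ (Real.exp 1) ^ 8 := by
        refine pow_le_pow_left₀ (by norm_num) ?_ _
        have := Real.exp_one_gt_d9
        linarith
      have e7 : (Real.exp 1) ^ 8 = Real.exp 8 := by
        rw [← Real.exp_nat_mul]
        norm_num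
      rw [← e7]
      refine le_trans ?_ e6
      norm_num
    have e6 : 16 * (((2 ^ b : ℕ) : ℝ)) ^ ((κ + 1) * b₀) * Real.exp (-(m₀ / 320 : ℝ)) ≤
        16 * (Real.exp Y * Real.exp (-(m₀ / 320 : ℝ))) := by
      rw [mul_assoc]
      refine mul_le_mul_of_nonneg_left ?_ (by norm_num)
      exact mul_le_mul_of_nonneg_right e1 (Real.exp_pos _).le
    linarith
  have t2 : 2 * ((κ : ℝ) * b₀) * n / M ≤ 1 / 100 := by
    rw [div_le_div_iff₀ hMR (by norm_num)]
    have e1 : 2 * (κ * b₀) * n * 100 ≤ 1 * M := by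
      have e2 : κ * b₀ ≤ Y := by
        rw [hY]
        calc κ * b₀ ≤ (κ + 1) * b₀ * 1 := by
              rw [mul_one]
              exact Nat.mul_le_mul_right _ (Nat.le_succ _)
          _ ≤ _ := Nat.mul_le_mul_left _ hb
      have e3 : A * (2 * (κ * b₀) * n * 100) ≤ A * (1 * M) := by
        calc A * (2 * (κ * b₀) * n * 100) ≤ A * (2 * Y * n * 100) := by gcongr
          _ = 200 * A * 1 * Y * n := by ring
          _ ≤ 10 ^ 6 * A * lam * Y * n := by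
              have : 1 ≤ lam := by omega
              gcongr
              norm_num
          _ ≤ n * n := Nat.mul_le_mul_right _ hAs
          _ = n ^ 2 := by ring
          _ ≤ A * M := hM
          _ = A * (1 * M) := by rw [one_mul]
      exact Nat.le_of_mul_le_mul_left e3 hA
    exact_mod_cast e1
  have t3 : 2 * ((R : ℝ) / (r' + 1 : ℝ)) * n / M ≤ 1 / 100 := by
    have e1 : (r' + 1 : ℝ) = 8000 * (A : ℝ) * r := by exact_mod_cast hr1
    have e2 : (R : ℝ) = 40 * r * n := by rw [hRd]; push_cast; ring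
    have e3 : (n : ℝ) ^ 2 ≤ A * M := by exact_mod_cast hM
    rw [e1, e2, div_le_iff₀ hMR]
    have e4 : 2 * (40 * (r : ℝ) * n / (8000 * A * r)) * n = (n : ℝ) ^ 2 / A * (1 / 100) := by
      field_simp
      ring
    rw [e4, mul_comm (1 / 100 : ℝ)]
    refine mul_le_mul_of_nonneg_right ?_ (by norm_num)
    rw [div_le_iff₀ hAR]
    linarith
  have t4 : (R : ℝ) * w / M ≤ 1 / 100 := by
    rw [div_le_div_iff₀ hMR (by norm_num)]
    have e1 : R * w * 100 ≤ 1 * M := by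
      calc R * w * 100 = w * (4000 * r * n) := by rw [hRd]; ring
        _ ≤ M := hw2
        _ = 1 * M := (one_mul _).symm
    exact_mod_cast e1
  have t5 : (1 - 1 / (4:ℝ) ^ r') ^ lam ≤ 1 / 100 := by
    have e0 : (0:ℝ) < (4:ℝ) ^ r' := by positivity
    have e1 : 1 - 1 / (4:ℝ) ^ r' ≤ Real.exp (-(1 / (4:ℝ) ^ r')) := by
      have := Real.add_one_le_exp (-(1 / (4:ℝ) ^ r'))
      linarith
    have e2 : (0:ℝ) ≤ 1 - 1 / (4:ℝ) ^ r' := by
      rw [sub_nonneg, div_le_one e0]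
      exact one_le_pow₀ (by norm_num)
    have e3 : (lam : ℝ) = 5 * (4:ℝ) ^ r' := by
      rw [hlam]
      push_cast
      ring
    calc (1 - 1 / (4:ℝ) ^ r') ^ lam ≤ (Real.exp (-(1 / (4:ℝ) ^ r'))) ^ lam :=
          pow_le_pow_left₀ e2 e1 _
      _ = Real.exp (-5) := by
          rw [← Real.exp_nat_mul, e3]
          congr 1
          field_simp
      _ ≤ 1 / 100 := by
          rw [Real.exp_neg, ← one_div]
          apply one_div_le_one_div_of_le (by norm_num)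
          have e6 : (2.7 : ℝ) ^ 5 ≤ (Real.exp 1) ^ 5 := by
            refine pow_le_pow_left₀ (by norm_num) ?_ _
            have := Real.exp_one_gt_d9
            linarith
          have e7 : (Real.exp 1) ^ 5 = Real.exp 5 := by
            rw [← Real.exp_nat_mul]
            norm_num
          rw [← e7]
          refine le_trans ?_ e6
          norm_num
  have t6 : (m₀ : ℝ) * lam / m ≤ 1 / 100 := by
    rw [div_le_div_iff₀ hmR (by norm_num)]
    have e1 : m₀ * lam * 100 ≤ 1 * m := by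
      calc m₀ * lam * 100 = m₀ * (100 * lam) := by ring
        _ ≤ m := hm₀2
        _ = 1 * m := (one_mul _).symm
    exact_mod_cast e1
  unfold err at key
  linarith

/-- From the explicit bound to the number of reads. -/
theorem reads_bound {A : ℕ} (hA : 1 ≤ A) {ε : ℝ} (hε : 0 < ε) : ∀ᶠ n : ℕ in atTop,
    ∀ (κ θ b : ℕ) (E : ℝ), 0 ≤ E → ((κ + 1) * (θ + 1) * b : ℝ) ≤ (n : ℝ) ^ (1 - ε) →
      (∀ r : ℕ, 1 ≤ r → E ≤ r * (n : ℝ) → n ≤ 2 ^ (17000 * A * r) * ((κ + 1) * (θ + 1) * b)) →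
      ε / (34000 * A) * (n * Real.logb 2 n) ≤ E := by
  have hAR : (0:ℝ) < A := by exact_mod_cast hA
  have hlog : Tendsto (fun n : ℕ => Real.logb 2 n) atTop atTop :=
    (Real.tendsto_logb_atTop (by norm_num)).comp tendsto_natCast_atTop_atTop
  filter_upwards [eventually_ge_atTop 1,
    hlog.eventually_ge_atTop (34000 * (A : ℝ) / ε)] with n h2 h3
  intro κ θ b E hE0 hsmall hex
  have hnR : (0:ℝ) < n := by exact_mod_cast h2
  obtain ⟨r, hr⟩ : ∃ r, r = max 1 ⌈E / (n : ℝ)⌉₊ := ⟨_, rfl⟩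
  have hr1 : 1 ≤ r := by rw [hr]; exact le_max_left _ _
  have hr2 : E ≤ r * (n : ℝ) := by
    rw [← div_le_iff₀ hnR]
    refine (Nat.le_ceil _).trans ?_
    rw [hr]
    exact_mod_cast le_max_right _ _
  have hr3 : (r : ℝ) ≤ E / (n : ℝ) + 1 := by
    rw [hr, Nat.cast_max]
    refine max_le ?_ (Nat.ceil_lt_add_one (by positivity)).le
    have : 0 ≤ E / (n : ℝ) := by positivity
    push_cast
    linarith
  have h4 := hex r hr1 hr2
  have h6 : (n : ℝ) ≤ 2 ^ (17000 * A * r) * ((κ + 1) * (θ + 1) * b) := by exact_mod_cast h4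
  have h8 : (n : ℝ) ≤ 2 ^ (17000 * A * r) * (n : ℝ) ^ (1 - ε) :=
    h6.trans (mul_le_mul_of_nonneg_left hsmall (by positivity))
  have h9 : (n : ℝ) ^ ε ≤ 2 ^ (17000 * A * r) := by
    have e1 : (n : ℝ) = (n : ℝ) ^ ε * (n : ℝ) ^ (1 - ε) := by
      rw [← Real.rpow_add hnR, show ε + (1 - ε) = 1 by ring, Real.rpow_one]
    have e2 : (0:ℝ) < (n : ℝ) ^ (1 - ε) := by positivity
    have e3 : (n : ℝ) ^ ε * (n : ℝ) ^ (1 - ε) ≤ 2 ^ (17000 * A * r) * (n : ℝ) ^ (1 - ε) := by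
      rw [← e1]
      exact h8
    exact le_of_mul_le_mul_right e3 e2
  have h10 : ε * Real.logb 2 n ≤ 17000 * (A : ℝ) * r := by
    have e1 := Real.logb_le_logb_of_le (b := 2) (by norm_num) (by positivity) h9
    rw [Real.logb_rpow_eq_mul_logb_of_pos hnR, ← Real.rpow_natCast 2 (17000 * A * r),
      Real.logb_rpow (by norm_num) (by norm_num)] at e1
    push_cast at e1
    exact e1
  rw [div_le_iff₀ hε] at h3
  have h11 : ε * Real.logb 2 n ≤ 17000 * (A : ℝ) * (E / (n : ℝ) + 1) :=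
    h10.trans (mul_le_mul_of_nonneg_left hr3 (by positivity))
  have h12 : ε / 2 * Real.logb 2 n ≤ 17000 * (A : ℝ) * (E / (n : ℝ)) := by
    nlinarith
  have h13 : ε / (34000 * (A : ℝ)) * Real.logb 2 n ≤ E / (n : ℝ) := by
    rw [div_mul_eq_mul_div, div_le_iff₀ (by positivity)]
    linarith
  rw [le_div_iff₀ hnR] at h13
  refine le_trans (le_of_eq ?_) h13
  ring

end Run7.h156.CX
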