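import Pool.Agent.Run7.h156.CR.Place
import Pool.Agent.Run7.h156.CX.Circ

/-!
# The bound for blocks with two variables at random places
-/

set_option autoImplicit false

open Finset

namespace Run7.h156.CX

open Run7.h156.CR

/-- Inputs `inp π x y` for placements `π` and sets `x`, `y` of blocks: the variable `ev π i` depends on
whether `i` is in `x`, the variable `fv π i` depends on whether `i` is in `y`, and nothing else depends
on `x` and `y`; the places of the two variables determine `π` and `i`. -/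
structure Blocks (P I ι X : Type) where
  /-- the first variable of a block -/
  ev : P → I → ι
  /-- the second variable of a block -/
  fv : P → I → ι
  /-- the inputs -/
  inp : P → Finset I → Finset I → ι → X
  inp_x : ∀ π x x' y e, (∀ i, e = ev π i → (i ∈ x ↔ i ∈ x')) → inp π x y e = inp π x' y e
  inp_y : ∀ π x y y' e, (∀ i, e = fv π i → (i ∈ y ↔ i ∈ y')) → inp π x y e = inp π x y' e
  ne : ∀ π i j, ev π i ≠ fv π j
  inj : ∀ π i π' i', ev π i = ev π' i' → fv π i = fv π' i' → π = π' ∧ i = i'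

variable {P I ι X : Type} [Fintype P] [Fintype I] [DecidableEq I] [Fintype ι] [DecidableEq ι]
  (W : Blocks P I ι X)

/-- **The placements.** -/
theorem placements {s : ℕ} (T : ι → Finset (Fin s)) (D : Finset ι)
    (R w r' lam : ℕ) (hR : ∀ Y : Finset ι, ∑ i ∈ Y, (T i).card ≤ R)
    (hw : ∀ (Y : Finset ι) (j : Fin s), (Y.filter fun i => j ∈ T i).card ≤ w) :
    ∃ (Gs : Finset (Finset (Fin s))) (good : P → Finset I)
      (grp : P → I → Finset (Fin s)), Gs.card ≤ lam ∧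
      (∀ π, ∀ i ∈ good π, grp π i ∈ Gs ∧ (W.ev π i ∉ D ∧ T (W.ev π i) ⊆ grp π i) ∧
        (W.fv π i ∉ D ∧ Disjoint (T (W.fv π i)) (grp π i))) ∧
      (∑ π, ((good π)ᶜ.card : ℝ)) ≤ 2 * D.card * (Fintype.card ι : ℝ) +
        2 * (R / (r' + 1 : ℝ)) * (Fintype.card ι : ℝ) + R * w +
        (1 - 1 / 4 ^ r') ^ lam * ((Fintype.card P : ℝ) * Fintype.card I) := by
  classical
  obtain ⟨n, hn⟩ : ∃ n, n = Fintype.card ι := ⟨_, rfl⟩
  obtain ⟨XX, hXX⟩ : ∃ XX : Finset (P × I), XX = univ.filter fun p =>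
    (T (W.ev p.1 p.2)).card ≤ r' ∧ (T (W.fv p.1 p.2)).card ≤ r' ∧
    Disjoint (T (W.ev p.1 p.2)) (T (W.fv p.1 p.2)) := ⟨_, rfl⟩
  obtain ⟨Gs, hG1, hG2⟩ := sep_family XX (fun p => T (W.ev p.1 p.2)) (fun p => T (W.fv p.1 p.2)) r'
    (fun u hu => by rw [hXX] at hu; exact (mem_filter.1 hu).2.1)
    (fun u hu => by rw [hXX] at hu; exact (mem_filter.1 hu).2.2.1)
    (fun u hu => by rw [hXX] at hu; exact (mem_filter.1 hu).2.2.2) lam
  obtain ⟨ok, hok⟩ : ∃ ok : P × I → Prop, ∀ p, ok p ↔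
    W.ev p.1 p.2 ∉ D ∧ W.fv p.1 p.2 ∉ D ∧
      ∃ J ∈ Gs, T (W.ev p.1 p.2) ⊆ J ∧ Disjoint (T (W.fv p.1 p.2)) J := ⟨_, fun _ => Iff.rfl⟩
  obtain ⟨good, hgood⟩ : ∃ good : P → Finset I, ∀ π, good π = univ.filter fun i =>
    ok (π, i) := ⟨_, fun _ => rfl⟩
  have hgm : ∀ π i, i ∈ good π ↔ ok (π, i) := by
    intro π i
    rw [hgood, mem_filter]
    simp only [mem_univ, true_and]
  obtain ⟨grp, hgrp⟩ : ∃ grp : P → I → Finset (Fin s), ∀ π i, grp π i =
    if hh : ∃ J ∈ Gs, T (W.ev π i) ⊆ J ∧ Disjoint (T (W.fv π i)) J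
      then hh.choose else ∅ := ⟨_, fun _ _ => rfl⟩
  refine ⟨Gs, good, grp, hG1, ?_, ?_⟩
  · intro π i hi
    rw [hgm, hok] at hi
    obtain ⟨h1, h2, h3⟩ := hi
    have h4 := h3.choose_spec
    rw [hgrp, dif_pos h3]
    exact ⟨h4.1, ⟨h1, h4.2.1⟩, h2, h4.2.2⟩
  obtain ⟨bad, hbad⟩ : ∃ bad : Finset (P × I), bad = univ.filter fun p => ¬ ok p := ⟨_, rfl⟩
  have h1 : ∑ π, (good π)ᶜ.card = bad.card := by
    rw [← card_sigma]
    refine card_bij (fun p _ => (p.1, p.2)) ?_ ?_ ?_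
    · rintro ⟨π, i⟩ hp
      rw [mem_sigma, mem_compl, hgm] at hp
      rw [hbad, mem_filter]
      exact ⟨mem_univ _, hp.2⟩
    · rintro ⟨π, i⟩ _ ⟨π', i'⟩ _ hp
      simp only [Prod.mk.injEq] at hp
      obtain ⟨rfl, rfl⟩ := hp
      rfl
    · rintro ⟨π, i⟩ hp
      rw [hbad, mem_filter] at hp
      exact ⟨⟨π, i⟩, by rw [mem_sigma, mem_compl, hgm]; exact ⟨mem_univ _, hp.2⟩, rfl⟩
  have hinj : ∀ p p' : P × I, W.ev p.1 p.2 = W.ev p'.1 p'.2 → W.fv p.1 p.2 = W.fv p'.1 p'.2 →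
      p = p' := fun p p' h h' => Prod.ext (W.inj _ _ _ _ h h').1 (W.inj _ _ _ _ h h').2
  -- counting by the first or the second variable
  have hone : ∀ (F : P × I → ι), (F = (fun p => W.ev p.1 p.2) ∨ F = fun p => W.fv p.1 p.2) →
      ∀ Y : Finset ι, (univ.filter fun p => F p ∈ Y).card ≤ Y.card * n := by
    intro F hF Y
    rw [hn, ← card_univ, ← card_product]
    rcases hF with rfl | rfl
    · refine card_le_card_of_injOn (fun p => (W.ev p.1 p.2, W.fv p.1 p.2)) ?_ ?_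
      · intro p hp
        rw [mem_coe, mem_filter] at hp
        exact mem_coe.2 (mem_product.2 ⟨hp.2, mem_univ _⟩)
      · intro p _ p' _ hpp
        simp only [Prod.mk.injEq] at hpp
        exact hinj p p' hpp.1 hpp.2
    · refine card_le_card_of_injOn (fun p => (W.fv p.1 p.2, W.ev p.1 p.2)) ?_ ?_
      · intro p hp
        rw [mem_coe, mem_filter] at hp
        exact mem_coe.2 (mem_product.2 ⟨hp.2, mem_univ _⟩)
      · intro p _ p' _ hpp
        simp only [Prod.mk.injEq] at hpp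
        exact hinj p p' hpp.2 hpp.1
  obtain ⟨Y, hY⟩ : ∃ Y : Finset ι, Y = univ.filter fun a => r' < (T a).card := ⟨_, rfl⟩
  have hYc : (r' + 1) * Y.card ≤ R := by
    refine le_trans ?_ (hR Y)
    rw [mul_comm, ← smul_eq_mul, ← sum_const]
    refine sum_le_sum fun u hu => ?_
    rw [hY] at hu
    exact Nat.succ_le_of_lt (mem_filter.1 hu).2
  have hdis : (univ.filter fun p : P × I =>
      ¬ Disjoint (T (W.ev p.1 p.2)) (T (W.fv p.1 p.2))).card ≤ R * w := by
    have h2 : (univ.filter fun p : P × I =>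
        ¬ Disjoint (T (W.ev p.1 p.2)) (T (W.fv p.1 p.2))).card ≤
        ((univ : Finset ι).biUnion fun a => (T a).biUnion fun j => ({a} : Finset ι) ×ˢ
          (univ.filter fun b : ι => j ∈ T b)).card := by
      refine card_le_card_of_injOn (fun p => (W.ev p.1 p.2, W.fv p.1 p.2)) ?_ ?_
      · intro p hp
        rw [mem_coe, mem_filter, Finset.not_disjoint_iff] at hp
        obtain ⟨-, j, hj1, hj2⟩ := hp
        rw [mem_coe, mem_biUnion]
        refine ⟨_, mem_univ (W.ev p.1 p.2), ?_⟩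
        rw [mem_biUnion]
        refine ⟨j, hj1, ?_⟩
        rw [mem_product]
        exact ⟨mem_singleton_self _, mem_filter.2 ⟨mem_univ _, hj2⟩⟩
      · intro p _ p' _ hpp
        simp only [Prod.mk.injEq] at hpp
        exact hinj p p' hpp.1 hpp.2
    refine h2.trans (card_biUnion_le.trans ?_)
    calc _ ≤ ∑ a : ι, (T a).card * w := by
          refine sum_le_sum fun a _ => card_biUnion_le_card_mul _ _ w fun j _ => ?_
          rw [card_product, card_singleton, one_mul]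
          exact hw univ j
      _ = (∑ a : ι, (T a).card) * w := by rw [sum_mul]
      _ ≤ _ := Nat.mul_le_mul_right _ (hR univ)
  obtain ⟨U, hU⟩ : ∃ U, U = (XX.filter fun u =>
    ¬ ∃ J ∈ Gs, T (W.ev u.1 u.2) ⊆ J ∧ Disjoint (T (W.fv u.1 u.2)) J).card := ⟨_, rfl⟩
  have hcov : bad.card ≤ (D.card * n + D.card * n) + (Y.card * n + Y.card * n) + (R * w + U) := by
    have h2 : bad ⊆ (((univ.filter fun p : P × I => W.ev p.1 p.2 ∈ D) ∪
        (univ.filter fun p : P × I => W.fv p.1 p.2 ∈ D)) ∪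
        ((univ.filter fun p : P × I => W.ev p.1 p.2 ∈ Y) ∪
        (univ.filter fun p : P × I => W.fv p.1 p.2 ∈ Y))) ∪
        ((univ.filter fun p : P × I => ¬ Disjoint (T (W.ev p.1 p.2)) (T (W.fv p.1 p.2))) ∪
        (XX.filter fun u =>
          ¬ ∃ J ∈ Gs, T (W.ev u.1 u.2) ⊆ J ∧ Disjoint (T (W.fv u.1 u.2)) J)) := by
      intro p hp
      rw [hbad, mem_filter, hok] at hp
      have hp2 := hp.2
      simp only [mem_union, mem_filter, mem_univ, true_and, hXX, hY]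
      by_cases c1 : W.ev p.1 p.2 ∈ D
      · exact Or.inl (Or.inl (Or.inl c1))
      by_cases c2 : W.fv p.1 p.2 ∈ D
      · exact Or.inl (Or.inl (Or.inr c2))
      by_cases c3 : r' < (T (W.ev p.1 p.2)).card
      · exact Or.inl (Or.inr (Or.inl c3))
      by_cases c4 : r' < (T (W.fv p.1 p.2)).card
      · exact Or.inl (Or.inr (Or.inr c4))
      by_cases c5 : Disjoint (T (W.ev p.1 p.2)) (T (W.fv p.1 p.2))
      swap
      · exact Or.inr (Or.inl c5)
      exact Or.inr (Or.inr ⟨⟨not_lt.1 c3, not_lt.1 c4, c5⟩, fun hJ => hp2 ⟨c1, c2, hJ⟩⟩)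
    refine (card_le_card h2).trans ((card_union_le _ _).trans (Nat.add_le_add
      ((card_union_le _ _).trans (Nat.add_le_add ((card_union_le _ _).trans (Nat.add_le_add
        (hone _ (Or.inl rfl) D) (hone _ (Or.inr rfl) D)))
        ((card_union_le _ _).trans (Nat.add_le_add (hone _ (Or.inl rfl) Y)
          (hone _ (Or.inr rfl) Y))))) ((card_union_le _ _).trans ?_)))
    rw [← hU]
    exact Nat.add_le_add_right hdis _
  have h5 : (U : ℝ) ≤ (1 - 1 / 4 ^ r') ^ lam * ((Fintype.card P : ℝ) * Fintype.card I) := by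
    have h6 : (XX.card : ℝ) ≤ (Fintype.card P : ℝ) * Fintype.card I := by
      have : XX.card ≤ Fintype.card (P × I) := card_le_univ _
      rw [Fintype.card_prod] at this
      exact_mod_cast this
    have h7 : (0:ℝ) ≤ (1 - 1 / 4 ^ r') ^ lam := by
      apply pow_nonneg
      rw [sub_nonneg, div_le_one (by positivity)]
      exact one_le_pow₀ (by norm_num)
    rw [hU]
    exact hG2.trans (mul_le_mul_of_nonneg_left h6 h7)
  have h6 : (0:ℝ) < r' + 1 := by positivity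
  have h7 : (Y.card : ℝ) ≤ R / (r' + 1 : ℝ) := by
    rw [le_div_iff₀ h6]
    have : ((r' + 1 : ℕ) : ℝ) * Y.card ≤ R := by exact_mod_cast hYc
    push_cast at this
    linarith
  have h8 : (∑ π, ((good π)ᶜ.card : ℝ)) ≤ (D.card * n + D.card * n) + (Y.card * n + Y.card * n) +
      (R * w + U) := by exact_mod_cast h1.le.trans hcov
  have hn0 : (0:ℝ) ≤ n := Nat.cast_nonneg _
  have h9 := mul_le_mul_of_nonneg_right h7 hn0
  rw [← hn]
  nlinarith

/-- The error term. -/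
noncomputable def err (n M m κ b₀ R w r' lam m₀ L : ℕ) : ℝ :=
  16 * (L : ℝ) ^ ((κ + 1) * b₀) * Real.exp (-(m₀ / 320 : ℝ)) + 2 * (κ * b₀) * n / M +
    2 * (R / (r' + 1 : ℝ)) * n / M + R * w / M +
    (1 - 1 / 4 ^ r') ^ lam + m₀ * lam / m

theorem err_nonneg (n M m κ b₀ R w r' lam m₀ L : ℕ) : 0 ≤ err n M m κ b₀ R w r' lam m₀ L := by
  have hq0 : (0:ℝ) ≤ (1 - 1 / 4 ^ r') ^ lam := by
    apply pow_nonneg
    rw [sub_nonneg, div_le_one (by positivity)]
    exact one_le_pow₀ (by norm_num)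
  unfold err
  positivity

theorem one_circuit {Z : Type} [Fintype Z] (C : WordCircuit ι X Z)
    {κ θ L R w s₀ b₀ : ℕ} (hκ : C.FanIn κ) (hθ : C.TreewidthLE θ) (hL : Fintype.card Z ≤ L)
    (hL1 : 1 ≤ L) (hR : C.reads ≤ R) (hs₀ : ∀ s, w * s ≤ 8 * R + w → s ≤ s₀)
    (hb₀ : b₀ = s₀ * (2 * (θ + 1)) + 1) (r' lam m₀ : ℕ)
    (hP1 : 1 ≤ Fintype.card P) (hI1 : 1 ≤ Fintype.card I) (a : Bool) :
    13 / 20 * ((∑ π, NO (fun x y => C.answer (W.inp π x y) = a)) / (Fintype.card P : ℝ)) -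
      err (Fintype.card ι) (Fintype.card P * Fintype.card I) (Fintype.card I)
        κ b₀ R w r' lam m₀ L ≤
      (∑ π, ∑ i, YES (fun x y => C.answer (W.inp π x y) = a) i) /
        (Fintype.card P * Fintype.card I : ℝ) := by
  classical
  obtain ⟨s, T, D, Cl, _, cl, h1, h2, h3, h4, h5, h6, h7⟩ := C.divide hκ hθ hL hL1 w
  have hs : s ≤ s₀ := hs₀ s (h1.trans (by omega))
  have hb : s * (2 * (θ + 1)) + 1 ≤ b₀ := by
    rw [hb₀]
    exact Nat.add_le_add_right (Nat.mul_le_mul_right _ hs) _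
  have hDc : D.card ≤ κ * b₀ := h2.trans (Nat.mul_le_mul_left _ hb)
  have hClc : Fintype.card Cl ≤ L ^ ((κ + 1) * b₀) :=
    h3.trans (Nat.pow_le_pow_right hL1 (Nat.mul_le_mul_left _ hb))
  obtain ⟨Gs, good, grp, g1, g2, g3⟩ := placements W T D R w r' lam
    (fun Y => (h4 Y).trans hR) h5
  obtain ⟨P', hP'⟩ : ∃ P' : Cl → Prop, ∀ c, P' c ↔ ∃ x, cl x = c ∧ C.answer x = a :=
    ⟨_, fun _ => Iff.rfl⟩
  have hPP : ∀ x, P' (cl x) = (C.answer x = a) := by
    intro x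
    apply propext
    rw [hP']
    constructor
    · rintro ⟨x', h8, h9⟩
      rwa [← h6 _ _ h8]
    · intro h8
      exact ⟨x, rfl, h8⟩
  obtain ⟨m, hm⟩ : ∃ m, m = Fintype.card I := ⟨_, rfl⟩
  obtain ⟨p, hp⟩ : ∃ p, p = Fintype.card P := ⟨_, rfl⟩
  obtain ⟨NN, hNN⟩ : ∃ NN : P → ℝ, ∀ π, NN π =
    NO (fun x y => C.answer (W.inp π x y) = a) := ⟨_, fun _ => rfl⟩
  obtain ⟨YY, hYY⟩ : ∃ YY : P → ℝ, ∀ π, YY π =
    ∑ i, YES (fun x y => C.answer (W.inp π x y) = a) i := ⟨_, fun _ => rfl⟩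
  have key : ∀ π : P, (m : ℝ) * (13 / 20 * NN π -
      16 * (L : ℝ) ^ ((κ + 1) * b₀) * Real.exp (-(m₀ / 320 : ℝ))) -
      ((good π)ᶜ.card + m₀ * lam) ≤ YY π := by
    intro π
    have h8 := total_bound Gs (good π) (grp π) (fun i hi => (g2 π i hi).1) m₀
      (fun x y => cl (W.inp π x y)) (by
        intro γ x y x' y' hx hy hc
        obtain ⟨Γ, hΓ⟩ : ∃ Γ, Γ = (good π).filter (fun i => grp π i = γ) := ⟨_, rfl⟩
        rw [← hΓ] at hx hy
        have hΓm : ∀ i ∈ Γ, i ∈ good π ∧ grp π i = γ := by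
          intro i hi
          rw [hΓ] at hi
          exact mem_filter.1 hi
        have hout : ∀ {u u' : Finset I} {i : I}, u \ Γ = u' \ Γ → i ∉ Γ → (i ∈ u ↔ i ∈ u') := by
          intro u u' i huu hi
          have h9 : i ∈ u \ Γ ↔ i ∈ u' \ Γ := by rw [huu]
          rw [mem_sdiff, mem_sdiff] at h9
          tauto
        refine h7 γ {e | ∃ i ∈ Γ, e = W.ev π i} {e | ∃ i ∈ Γ, e = W.fv π i}
          (W.inp π x y) (W.inp π x' y') (W.inp π x y') ?_ ?_ ?_ hc ?_ ?_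
        · rintro e ⟨i, hi, rfl⟩
          have h9 := (g2 π i (hΓm i hi).1).2.1
          rw [(hΓm i hi).2] at h9
          exact h9
        · rintro e ⟨i, hi, rfl⟩
          have h9 := (g2 π i (hΓm i hi).1).2.2
          rw [(hΓm i hi).2] at h9
          exact h9
        · intro e heA heE
          rw [W.inp_x π x x' y e (fun i he => hout hx fun hi => heA ⟨i, hi, he⟩),
            W.inp_y π x' y y' e (fun i he => hout hy fun hi => heE ⟨i, hi, he⟩)]
        · rintro e ⟨i, hi, rfl⟩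
          exact W.inp_y π x y' y _ (fun j he => absurd he (W.ne π i j))
        · intro e heA
          exact W.inp_x π x x' y' e (fun i he => hout hx fun hi => heA ⟨i, hi, he⟩)) P'
    simp only [hPP] at h8
    rw [← hNN, ← hYY, ← hm] at h8
    refine le_trans ?_ h8
    have e1 : (Fintype.card Cl : ℝ) ≤ (L : ℝ) ^ ((κ + 1) * b₀) := by exact_mod_cast hClc
    have e2 : (Gs.card : ℝ) ≤ lam := by exact_mod_cast g1
    have e3 : (0:ℝ) ≤ m := Nat.cast_nonneg _
    have e4 : (0:ℝ) ≤ m₀ := Nat.cast_nonneg _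
    have e5 := Real.exp_pos (-(m₀ / 320 : ℝ))
    have e6 : 16 * (Fintype.card Cl : ℝ) * Real.exp (-(m₀ / 320 : ℝ)) ≤
        16 * (L : ℝ) ^ ((κ + 1) * b₀) * Real.exp (-(m₀ / 320 : ℝ)) := by gcongr
    have e7 := mul_le_mul_of_nonneg_left e2 e4
    have e8 : (m : ℝ) * (13 / 20 * NN π -
        16 * (L : ℝ) ^ ((κ + 1) * b₀) * Real.exp (-(m₀ / 320 : ℝ))) ≤
        m * (13 / 20 * NN π - 16 * (Fintype.card Cl : ℝ) * Real.exp (-(m₀ / 320 : ℝ))) :=
      mul_le_mul_of_nonneg_left (by linarith) e3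
    linarith
  have hsum := sum_le_sum (s := univ) fun π _ => key π
  rw [sum_sub_distrib, ← mul_sum, sum_sub_distrib, ← mul_sum, sum_const, nsmul_eq_mul,
    sum_add_distrib, sum_const, nsmul_eq_mul, card_univ, ← hp] at hsum
  rw [← hm] at hI1
  rw [← hp] at hP1
  rw [← hm, ← hp, sum_congr rfl fun π _ => (hNN π).symm, sum_congr rfl fun π _ => (hYY π).symm]
  rw [← hm, ← hp] at g3
  have hm0 : (0:ℝ) < m := by exact_mod_cast hI1
  have hp0 : (0:ℝ) < p := by exact_mod_cast hP1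
  have hD' : (D.card : ℝ) ≤ κ * b₀ := by exact_mod_cast hDc
  obtain ⟨n, hn⟩ : ∃ n, n = Fintype.card ι := ⟨_, rfl⟩
  rw [← hn] at g3 ⊢
  have hn0 : (0:ℝ) ≤ n := Nat.cast_nonneg _
  have g4 : (∑ π, ((good π)ᶜ.card : ℝ)) ≤ (p * m : ℝ) *
      (2 * (κ * b₀) * n / (p * m) + 2 * (R / (r' + 1 : ℝ)) * n / (p * m) +
        R * w / (p * m) + (1 - 1 / 4 ^ r') ^ lam) := by
    have e1 : 2 * (D.card : ℝ) * n ≤ 2 * (κ * b₀) * n := by gcongr
    have e2 : (p * m : ℝ) *
      (2 * (κ * b₀) * n / (p * m) + 2 * (R / (r' + 1 : ℝ)) * n / (p * m) +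
        R * w / (p * m) + (1 - 1 / 4 ^ r') ^ lam) = 2 * (κ * b₀) * n +
        2 * (R / (r' + 1 : ℝ)) * n + R * w + (1 - 1 / 4 ^ r') ^ lam * (p * m) := by
      field_simp
    rw [e2]
    linarith
  have hpos : (0:ℝ) < p * m := by positivity
  rw [le_div_iff₀ hpos]
  refine le_trans (le_of_eq ?_) (le_trans (sub_le_sub_left (add_le_add_left g4 _) _) hsum)
  unfold err
  push_cast
  field_simp
  ring

/-- **Random circuits.** -/
theorem random_circuits {Z Ω : Type} [Fintype Z] [Fintype Ω]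
    (μ : Ω → ℝ) (hμ0 : ∀ ω, 0 ≤ μ ω) (hμ1 : ∑ ω, μ ω = 1) (C : Ω → WordCircuit ι X Z)
    {κ θ L R w s₀ b₀ : ℕ} (hκ : ∀ ω, (C ω).FanIn κ) (hθ : ∀ ω, (C ω).TreewidthLE θ)
    (hL : Fintype.card Z ≤ L) (hL1 : 1 ≤ L) (hR0 : 1 ≤ R)
    (hR : 40 * ∑ ω, μ ω * (C ω).reads ≤ R) (hs₀ : ∀ s, w * s ≤ 8 * R + w → s ≤ s₀)
    (hb₀ : b₀ = s₀ * (2 * (θ + 1)) + 1) (r' lam m₀ : ℕ)
    (hP1 : 1 ≤ Fintype.card P) (hI1 : 1 ≤ Fintype.card I) (a : Bool)
    (hyes : ∀ π x y i, i ∈ x → i ∈ y →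
      ∑ ω, μ ω * ind ((C ω).answer (W.inp π x y) = a) ≤ 1 / 3)
    (hno : ∀ π x y, Disjoint x y →
      2 / 3 ≤ ∑ ω, μ ω * ind ((C ω).answer (W.inp π x y) = a)) :
    67 / 800 ≤ err (Fintype.card ι) (Fintype.card P * Fintype.card I) (Fintype.card I)
      κ b₀ R w r' lam m₀ L := by
  classical
  obtain ⟨m, hm⟩ : ∃ m, m = Fintype.card I := ⟨_, rfl⟩
  obtain ⟨p, hp⟩ : ∃ p, p = Fintype.card P := ⟨_, rfl⟩
  obtain ⟨NB, hNB⟩ : ∃ NB : Ω → ℝ, ∀ ω, NB ω = (∑ π, NO (fun x y =>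
    (C ω).answer (W.inp π x y) = a)) / (Fintype.card P : ℝ) := ⟨_, fun _ => rfl⟩
  obtain ⟨YB, hYB⟩ : ∃ YB : Ω → ℝ, ∀ ω, YB ω = (∑ π, ∑ i, YES (fun x y =>
    (C ω).answer (W.inp π x y) = a) i) / (Fintype.card P * Fintype.card I : ℝ) :=
    ⟨_, fun _ => rfl⟩
  obtain ⟨E, hE⟩ : ∃ E, E = err (Fintype.card ι) (Fintype.card P * Fintype.card I)
    (Fintype.card I) κ b₀ R w r' lam m₀ L := ⟨_, rfl⟩
  have hE0 : 0 ≤ E := by rw [hE]; exact err_nonneg _ _ _ _ _ _ _ _ _ _ _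
  rw [← hE]
  have hm0 : (0:ℝ) < (Fintype.card I : ℝ) := by exact_mod_cast hI1
  have hp0 : (0:ℝ) < (Fintype.card P : ℝ) := by exact_mod_cast hP1
  have hgood : ∀ ω, 13 / 20 * NB ω - E - 13 / 20 * ind (R < (C ω).reads) ≤ YB ω := by
    intro ω
    by_cases hω : R < (C ω).reads
    · have e1 : ind (R < (C ω).reads) = 1 := by unfold ind; rw [if_pos hω]
      have e2 : NB ω ≤ 1 := by
        rw [hNB, div_le_one hp0, ← card_univ, ← nsmul_one]
        exact sum_le_card_nsmul _ _ _ fun π _ => NO_le_one _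
      have e3 : 0 ≤ YB ω := by
        rw [hYB]
        exact div_nonneg (sum_nonneg fun π _ => sum_nonneg fun i _ => YES_nonneg _ _) (by positivity)
      rw [e1]
      linarith
    · have e1 : ind (R < (C ω).reads) = 0 := by unfold ind; rw [if_neg hω]
      have e2 := one_circuit W (C ω) (hκ ω) (hθ ω) hL hL1 (not_lt.1 hω) hs₀ hb₀ r' lam m₀
        hP1 hI1 a
      rw [← hNB, ← hYB, ← hE] at e2
      rw [e1]
      linarith
  have hsum := sum_le_sum (s := univ) fun ω _ => mul_le_mul_of_nonneg_left (hgood ω) (hμ0 ω)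
  have hmark : ∑ ω, μ ω * ind (R < (C ω).reads) ≤ 1 / 40 := by
    have hR0' : (0:ℝ) < R := by exact_mod_cast hR0
    have e1 : ∑ ω, μ ω * ind (R < (C ω).reads) ≤ (∑ ω, μ ω * (C ω).reads) / R := by
      rw [le_div_iff₀ hR0', sum_mul]
      refine sum_le_sum fun ω _ => ?_
      unfold ind
      split_ifs with hω
      · rw [mul_one]
        exact mul_le_mul_of_nonneg_left (by exact_mod_cast hω.le) (hμ0 ω)
      · rw [mul_zero, zero_mul]
        exact mul_nonneg (hμ0 ω) (Nat.cast_nonneg _)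
    refine e1.trans ?_
    rw [div_le_div_iff₀ hR0' (by norm_num)]
    linarith
  have hN : 2 / 3 ≤ ∑ ω, μ ω * NB ω := by
    have e1 : ∑ ω, μ ω * NB ω = (∑ π : P, av3 fun T z z' => ∑ ω, μ ω *
        ind ((C ω).answer (W.inp π (z ∩ T) (z' ∩ Tᶜ)) = a)) / (Fintype.card P : ℝ) := by
      rw [eq_div_iff (by positivity), sum_mul]
      have e2 : ∀ ω, μ ω * NB ω * (Fintype.card P : ℝ) = ∑ π : P,
          av3 fun T z z' => μ ω * ind ((C ω).answer (W.inp π (z ∩ T) (z' ∩ Tᶜ)) = a) := by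
        intro ω
        rw [hNB, mul_assoc, div_mul_cancel₀ _ (by positivity), mul_sum]
        refine sum_congr rfl fun π _ => ?_
        unfold NO
        have := av3_lin (μ ω) 0 (fun T z z' =>
          ind ((C ω).answer (W.inp π (z ∩ T) (z' ∩ Tᶜ)) = a))
        simp only [add_zero] at this
        exact this.symm
      rw [sum_congr rfl fun ω _ => e2 ω, sum_comm]
      refine sum_congr rfl fun π _ => ?_
      rw [av3_sum]
    rw [e1, le_div_iff₀ (by positivity), ← card_univ, mul_comm, ← nsmul_eq_mul]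
    refine card_nsmul_le_sum _ _ _ fun π _ => ?_
    have e3 : av3 (fun _ _ _ : Finset I => (2 / 3 : ℝ)) = 2 / 3 := by
      unfold av3
      simp only [av_const]
    rw [← e3]
    refine av3_mono fun T z z' => hno π _ _ ?_
    rw [Finset.disjoint_left]
    intro i hi hi'
    exact (mem_compl.1 (mem_inter.1 hi').2) (mem_inter.1 hi).2
  have hY : ∑ ω, μ ω * YB ω ≤ 1 / 3 := by
    have e1 : ∑ ω, μ ω * YB ω = (∑ π : P, ∑ i, av3 fun T z z' => ∑ ω, μ ω *
        ind ((C ω).answer (W.inp π (insert i (z ∩ T)) (insert i (z' ∩ Tᶜ))) = a)) /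
        (Fintype.card P * Fintype.card I : ℝ) := by
      rw [eq_div_iff (by positivity), sum_mul]
      have e2 : ∀ ω, μ ω * YB ω * (Fintype.card P * Fintype.card I : ℝ) = ∑ π : P,
          ∑ i, av3 fun T z z' => μ ω * ind ((C ω).answer
            (W.inp π (insert i (z ∩ T)) (insert i (z' ∩ Tᶜ))) = a) := by
        intro ω
        rw [hYB, mul_assoc, div_mul_cancel₀ _ (by positivity), mul_sum]
        refine sum_congr rfl fun π _ => ?_
        rw [mul_sum]
        refine sum_congr rfl fun i _ => ?_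
        unfold YES
        have := av3_lin (μ ω) 0 (fun T z z' => ind ((C ω).answer
            (W.inp π (insert i (z ∩ T)) (insert i (z' ∩ Tᶜ))) = a))
        simp only [add_zero] at this
        exact this.symm
      rw [sum_congr rfl fun ω _ => e2 ω, sum_comm]
      refine sum_congr rfl fun π _ => ?_
      rw [sum_comm]
      refine sum_congr rfl fun i _ => ?_
      rw [av3_sum]
    rw [e1, div_le_iff₀ (by positivity)]
    have e4 : ∀ π : P, (∑ i, av3 fun T z z' => ∑ ω, μ ω *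
        ind ((C ω).answer (W.inp π (insert i (z ∩ T)) (insert i (z' ∩ Tᶜ))) = a)) ≤
        Fintype.card I * (1 / 3 : ℝ) := by
      intro π
      rw [← nsmul_eq_mul, ← card_univ]
      refine sum_le_card_nsmul _ _ _ fun i _ => ?_
      have e3 : av3 (fun _ _ _ : Finset I => (1 / 3 : ℝ)) = 1 / 3 := by
        unfold av3
        simp only [av_const]
      rw [← e3]
      exact av3_mono fun T z z' => hyes π _ _ i (mem_insert_self i _) (mem_insert_self i _)
    refine (sum_le_card_nsmul _ _ _ fun π _ => e4 π).trans (le_of_eq ?_)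
    rw [nsmul_eq_mul, card_univ]
    ring
  have e5 : ∑ ω, μ ω * (13 / 20 * NB ω - E - 13 / 20 * ind (R < (C ω).reads)) =
      13 / 20 * ∑ ω, μ ω * NB ω - E * ∑ ω, μ ω - 13 / 20 * ∑ ω, μ ω * ind (R < (C ω).reads) := by
    rw [mul_sum, mul_sum, mul_sum, ← sum_sub_distrib, ← sum_sub_distrib]
    exact sum_congr rfl fun ω _ => by ring
  rw [e5, hμ1] at hsum
  linarith

end Run7.h156.CX
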