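import Pool.Agent.Run7.h156.CX.Expl

/-!
# Zero-sum triples in sorted lists
-/

set_option autoImplicit false

open Finset Filter

namespace Run7.h156.CX

open Run7.h156.CR

open Classical in
/-- The list for the shift `τ` and the sets `x`, `y`. -/
noncomputable def V (m τ : ℕ) (x y : ℕ → Prop) (p : ℕ) : ℤ :=
  if p < 2 * m then
    (if τ ≤ 2 * m - 1 - p ∧ 2 * m - 1 - p < τ + m then
      (if y (2 * m - 1 - p - τ) then -(33 * ((2 * m - 1 - p : ℕ) : ℤ) + 12)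
        else -(33 * ((2 * m - 1 - p : ℕ) : ℤ) + 23))
     else -(33 * ((2 * m - 1 - p : ℕ) : ℤ) + 8))
  else if p = 2 * m then 0
  else if p < 3 * m + 1 then
    (if x (p - (2 * m + 1)) then 33 * ((p - (2 * m + 1) + τ : ℕ) : ℤ) + 12
      else 33 * ((p - (2 * m + 1) + τ : ℕ) : ℤ) + 1)
  else 33 * ((p - m : ℕ) : ℤ) + 3

theorem V_cases (m τ : ℕ) (x y : ℕ → Prop) (p : ℕ) :
    (∃ t, p + t + 1 = 2 * m ∧
      ((τ ≤ t ∧ t < τ + m ∧ y (t - τ) ∧ V m τ x y p = -(33 * (t : ℤ) + 12)) ∨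
      (τ ≤ t ∧ t < τ + m ∧ ¬ y (t - τ) ∧ V m τ x y p = -(33 * (t : ℤ) + 23)) ∨
      V m τ x y p = -(33 * (t : ℤ) + 8))) ∨
    (p = 2 * m ∧ V m τ x y p = 0) ∨
    (∃ i, p = 2 * m + 1 + i ∧ i < m ∧ ((x i ∧ V m τ x y p = 33 * ((i : ℤ) + τ) + 12) ∨
      (¬ x i ∧ V m τ x y p = 33 * ((i : ℤ) + τ) + 1))) ∨
    (3 * m + 1 ≤ p ∧ V m τ x y p = 33 * ((p : ℤ) - m) + 3) := by
  unfold V
  by_cases h1 : p < 2 * m
  · refine Or.inl ⟨2 * m - 1 - p, by omega, ?_⟩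
    by_cases h2 : τ ≤ 2 * m - 1 - p ∧ 2 * m - 1 - p < τ + m
    · by_cases h3 : y (2 * m - 1 - p - τ)
      · exact Or.inl ⟨h2.1, h2.2, h3, by rw [if_pos h1, if_pos h2, if_pos h3]⟩
      · exact Or.inr (Or.inl ⟨h2.1, h2.2, h3, by rw [if_pos h1, if_pos h2, if_neg h3]⟩)
    · exact Or.inr (Or.inr (by rw [if_pos h1, if_neg h2]))
  · by_cases h2 : p = 2 * m
    · exact Or.inr (Or.inl ⟨h2, by rw [if_neg h1, if_pos h2]⟩)
    · by_cases h3 : p < 3 * m + 1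
      · refine Or.inr (Or.inr (Or.inl ⟨p - (2 * m + 1), by omega, by omega, ?_⟩))
        by_cases h4 : x (p - (2 * m + 1))
        · refine Or.inl ⟨h4, ?_⟩
          rw [if_neg h1, if_neg h2, if_pos h3, if_pos h4]
          push_cast
          ring
        · refine Or.inr ⟨h4, ?_⟩
          rw [if_neg h1, if_neg h2, if_pos h3, if_neg h4]
          push_cast
          ring
      · refine Or.inr (Or.inr (Or.inr ⟨by omega, ?_⟩))
        rw [if_neg h1, if_neg h2, if_neg h3]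
        omega

theorem V_congr_x {m τ : ℕ} {x x' y : ℕ → Prop} {p : ℕ}
    (h : 2 * m < p → p < 3 * m + 1 → (x (p - (2 * m + 1)) ↔ x' (p - (2 * m + 1)))) :
    V m τ x y p = V m τ x' y p := by
  unfold V
  by_cases h1 : p < 2 * m
  · rw [if_pos h1, if_pos h1]
  by_cases h2 : p = 2 * m
  · rw [if_neg h1, if_pos h2, if_neg h1, if_pos h2]
  by_cases h3 : p < 3 * m + 1
  · have h4 := h (by omega) h3
    rw [if_neg h1, if_neg h2, if_pos h3, if_neg h1, if_neg h2, if_pos h3]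
    by_cases h5 : x (p - (2 * m + 1))
    · rw [if_pos h5, if_pos (h4.1 h5)]
    · rw [if_neg h5, if_neg fun h6 => h5 (h4.2 h6)]
  · rw [if_neg h1, if_neg h2, if_neg h3, if_neg h1, if_neg h2, if_neg h3]

theorem V_congr_y {m τ : ℕ} {x y y' : ℕ → Prop} {p : ℕ}
    (h : p < 2 * m → τ ≤ 2 * m - 1 - p → 2 * m - 1 - p < τ + m →
      (y (2 * m - 1 - p - τ) ↔ y' (2 * m - 1 - p - τ))) :
    V m τ x y p = V m τ x y' p := by
  unfold V
  by_cases h1 : p < 2 * m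
  · rw [if_pos h1, if_pos h1]
    by_cases h2 : τ ≤ 2 * m - 1 - p ∧ 2 * m - 1 - p < τ + m
    · have h4 := h h1 h2.1 h2.2
      rw [if_pos h2, if_pos h2]
      by_cases h5 : y (2 * m - 1 - p - τ)
      · rw [if_pos h5, if_pos (h4.1 h5)]
      · rw [if_neg h5, if_neg fun h6 => h5 (h4.2 h6)]
    · rw [if_neg h2, if_neg h2]
  · rw [if_neg h1, if_neg h1]

theorem V_mono {m τ : ℕ} (hτ : τ < m) (x y : ℕ → Prop) {p q : ℕ} (h : p < q) :
    V m τ x y p < V m τ x y q := by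
  rcases V_cases m τ x y p with ⟨t, h1, ⟨h2, h3, h4, h5⟩ | ⟨h2, h3, h4, h5⟩ | h5⟩ | ⟨h1, h5⟩ |
    ⟨i, h1, h2, ⟨h3, h5⟩ | ⟨h3, h5⟩⟩ | ⟨h1, h5⟩ <;>
  rcases V_cases m τ x y q with ⟨t', k1, ⟨k2, k3, k4, k5⟩ | ⟨k2, k3, k4, k5⟩ | k5⟩ | ⟨k1, k5⟩ |
    ⟨i', k1, k2, ⟨k3, k5⟩ | ⟨k3, k5⟩⟩ | ⟨k1, k5⟩ <;>
  rw [h5, k5] <;> omega

theorem V_abs {n m τ : ℕ} (hτ : τ < m) (hn : 3 * m + 1 ≤ n) (x y : ℕ → Prop) {p : ℕ} (h : p < n) :
    |V m τ x y p| ≤ 33 * (n : ℤ) := by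
  rcases V_cases m τ x y p with ⟨t, h1, ⟨h2, h3, h4, h5⟩ | ⟨h2, h3, h4, h5⟩ | h5⟩ | ⟨h1, h5⟩ |
    ⟨i, h1, h2, ⟨h3, h5⟩ | ⟨h3, h5⟩⟩ | ⟨h1, h5⟩ <;>
  rw [h5, abs_le] <;> constructor <;> omega

/-- In an increasing triple with sum zero: a solution. -/
theorem V_zero_aux {m τ : ℕ} (x y : ℕ → Prop) {p q s : ℕ} (hpq : p < q)
    (hqs : q < s) (h : V m τ x y p + V m τ x y q + V m τ x y s = 0) : ∃ i, i < m ∧ x i ∧ y i := by
  rcases V_cases m τ x y p with ⟨t, h1, ⟨h2, h3, h4, h5⟩ | ⟨h2, h3, h4, h5⟩ | h5⟩ | ⟨h1, h5⟩ |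
    ⟨i, h1, h2, ⟨h3, h5⟩ | ⟨h3, h5⟩⟩ | ⟨h1, h5⟩ <;>
  rcases V_cases m τ x y q with ⟨t', k1, ⟨k2, k3, k4, k5⟩ | ⟨k2, k3, k4, k5⟩ | k5⟩ | ⟨k1, k5⟩ |
    ⟨i', k1, k2, ⟨k3, k5⟩ | ⟨k3, k5⟩⟩ | ⟨k1, k5⟩ <;>
  first
  | (exfalso; omega)
  | (rcases V_cases m τ x y s with ⟨t'', l1, ⟨l2, l3, l4, l5⟩ | ⟨l2, l3, l4, l5⟩ | l5⟩ | ⟨l1, l5⟩ |
      ⟨i'', l1, l2, ⟨l3, l5⟩ | ⟨l3, l5⟩⟩ | ⟨l1, l5⟩ <;>
    rw [h5, k5, l5] at h <;>
    first
    | (exfalso; omega)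
    | exact ⟨i'', l2, l3, by rwa [show t - τ = i'' by omega] at h4⟩)

theorem V_zero {m τ : ℕ} (x y : ℕ → Prop) {p q s : ℕ} (hpq : p ≠ q) (hps : p ≠ s)
    (hqs : q ≠ s) (h : V m τ x y p + V m τ x y q + V m τ x y s = 0) : ∃ i, i < m ∧ x i ∧ y i := by
  rcases lt_or_gt_of_ne hpq with h1 | h1 <;> rcases lt_or_gt_of_ne hps with h2 | h2 <;>
    rcases lt_or_gt_of_ne hqs with h3 | h3
  · exact V_zero_aux x y h1 h3 h
  · exact V_zero_aux x y h2 h3 (by rw [← h]; ring)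
  · omega
  · exact V_zero_aux x y h2 h1 (by rw [← h]; ring)
  · exact V_zero_aux x y h1 h2 (by rw [← h]; ring)
  · omega
  · exact V_zero_aux x y h3 h2 (by rw [← h]; ring)
  · exact V_zero_aux x y h3 h1 (by rw [← h]; ring)

theorem V_sum {m τ : ℕ} (hτ : τ < m) (x y : ℕ → Prop) {i : ℕ} (hi : i < m) (hx : x i) (hy : y i) :
    V m τ x y (2 * m - 1 - (i + τ)) + V m τ x y (2 * m) + V m τ x y (2 * m + 1 + i) = 0 := by
  have h1 : V m τ x y (2 * m - 1 - (i + τ)) = -(33 * ((i : ℤ) + τ) + 12) := by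
    rcases V_cases m τ x y (2 * m - 1 - (i + τ)) with ⟨t, h1, ⟨h2, h3, h4, h5⟩ |
      ⟨h2, h3, h4, h5⟩ | h5⟩ | ⟨h1, h5⟩ | ⟨i', h1, h2, h3⟩ | ⟨h1, h5⟩
    · rw [h5]; omega
    · exact absurd (by rwa [show t - τ = i by omega]) h4
    · exfalso
      unfold V at h5
      rw [if_pos (by omega), if_pos ⟨by omega, by omega⟩,
        if_pos (by rwa [show 2 * m - 1 - (2 * m - 1 - (i + τ)) - τ = i by omega])] at h5
      omega
    · omega
    · omega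
    · omega
  have h2 : V m τ x y (2 * m) = 0 := by
    unfold V
    rw [if_neg (by omega), if_pos rfl]
  have h3 : V m τ x y (2 * m + 1 + i) = 33 * ((i : ℤ) + τ) + 12 := by
    unfold V
    rw [if_neg (by omega), if_neg (by omega), if_pos (by omega),
      if_pos (by rwa [show 2 * m + 1 + i - (2 * m + 1) = i by omega])]
    omega
  rw [h1, h2, h3]
  ring

/-- The list is increasing and consists of integers between `-n ^ 2` and `n ^ 2`. -/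
def IsSorted {n : ℕ} (x : Fin n → ℤ) : Prop := StrictMono x ∧ ∀ i, |x i| ≤ (n : ℤ) ^ 2

/-- Three numbers at different places of the list have sum zero. -/
def HasZero {n : ℕ} (x : Fin n → ℤ) : Prop :=
  ∃ i j k, i ≠ j ∧ i ≠ k ∧ j ≠ k ∧ x i + x j + x k = 0

/-- A set of numbers less than `m` as a predicate. -/
def Mem {m : ℕ} (x : Finset (Fin m)) (k : ℕ) : Prop := ∃ h : k < m, (⟨k, h⟩ : Fin m) ∈ x

theorem mem_iff {m : ℕ} (x : Finset (Fin m)) (i : Fin m) : Mem x i.1 ↔ i ∈ x :=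
  ⟨fun ⟨_, h⟩ => h, fun h => ⟨i.2, h⟩⟩

/-- The blocks. -/
noncomputable def blocks (n m : ℕ) (hn : 3 * m + 1 ≤ n) : Blocks (Fin m) (Fin m) (Fin n) ℤ where
  ev τ i := ⟨2 * m + 1 + i.1, by omega⟩
  fv τ i := ⟨2 * m - 1 - (i.1 + τ.1), by omega⟩
  inp τ x y p := V m τ.1 (Mem x) (Mem y) p.1
  inp_x := by
    intro τ x x' y e h
    refine V_congr_x fun h1 h2 => ?_
    obtain ⟨k, hk⟩ : ∃ k : Fin m, k.1 = e.1 - (2 * m + 1) := ⟨⟨_, by omega⟩, rfl⟩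
    rw [← hk, mem_iff, mem_iff]
    exact h k (Fin.ext (by
      show e.1 = 2 * m + 1 + k.1
      omega))
  inp_y := by
    intro τ x y y' e h
    refine V_congr_y fun h1 h2 h3 => ?_
    obtain ⟨k, hk⟩ : ∃ k : Fin m, k.1 = 2 * m - 1 - e.1 - τ.1 := ⟨⟨_, by omega⟩, rfl⟩
    rw [← hk, mem_iff, mem_iff]
    exact h k (Fin.ext (by
      show e.1 = 2 * m - 1 - (k.1 + τ.1)
      omega))
  ne := by
    intro τ i j h
    have h1 : 2 * m + 1 + i.1 = 2 * m - 1 - (j.1 + τ.1) := congrArg Fin.val h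
    omega
  inj := by
    intro τ i τ' i' h1 h2
    have h3 : 2 * m + 1 + i.1 = 2 * m + 1 + i'.1 := congrArg Fin.val h1
    have h4 : 2 * m - 1 - (i.1 + τ.1) = 2 * m - 1 - (i'.1 + τ'.1) := congrArg Fin.val h2
    exact ⟨Fin.ext (by omega), Fin.ext (by omega)⟩

theorem isSorted_blocks {n m : ℕ} (hn : 3 * m + 1 ≤ n) (h33 : 33 ≤ n) (τ : Fin m)
    (x y : Finset (Fin m)) : IsSorted ((blocks n m hn).inp τ x y) := by
  constructor
  · intro p q h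
    exact V_mono τ.2 _ _ h
  · intro p
    refine (V_abs τ.2 hn _ _ p.2).trans ?_
    have : (33 : ℤ) ≤ n := by exact_mod_cast h33
    nlinarith

theorem hasZero_blocks {n m : ℕ} (hn : 3 * m + 1 ≤ n) (τ : Fin m) (x y : Finset (Fin m)) :
    HasZero ((blocks n m hn).inp τ x y) ↔ ∃ i, i ∈ x ∧ i ∈ y := by
  constructor
  · rintro ⟨p, q, s, h1, h2, h3, h4⟩
    obtain ⟨i, h5, h6, h7⟩ := V_zero (Mem x) (Mem y) (fun h => h1 (Fin.ext h))
      (fun h => h2 (Fin.ext h)) (fun h => h3 (Fin.ext h)) h4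
    exact ⟨⟨i, h5⟩, (mem_iff x ⟨i, h5⟩).1 h6, (mem_iff y ⟨i, h5⟩).1 h7⟩
  · rintro ⟨i, hx, hy⟩
    have h1 := i.2
    have h2 := τ.2
    refine ⟨⟨2 * m - 1 - (i.1 + τ.1), by omega⟩, ⟨2 * m, by omega⟩, ⟨2 * m + 1 + i.1, by omega⟩,
      ?_, ?_, ?_, V_sum τ.2 _ _ i.2 ((mem_iff x i).2 hx) ((mem_iff y i).2 hy)⟩
    all_goals
      intro h
      have h3 := congrArg Fin.val h
      simp only at h3
      omega

/-- The probability that the answer of the random circuit for the list `x` is `a`. -/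
noncomputable def prob {n : ℕ} {Z Ω : Type} [Fintype Ω] (μ : Ω → ℝ)
    (C : Ω → WordCircuit (Fin n) ℤ Z) (x : Fin n → ℤ) (a : Bool) : ℝ :=
  ∑ ω ∈ univ.filter (fun ω => (C ω).answer x = a), μ ω

/-- The random circuits decide with error probability at most `1 / 3` if an increasing list of `n`
integers between `-n ^ 2` and `n ^ 2` has three numbers at different places with sum zero. -/
def Decides {n : ℕ} {Z Ω : Type} [Fintype Ω] (μ : Ω → ℝ)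
    (C : Ω → WordCircuit (Fin n) ℤ Z) : Prop :=
  (∀ ω, 0 ≤ μ ω) ∧ ∑ ω, μ ω = 1 ∧ ∀ x : Fin n → ℤ, IsSorted x →
    (HasZero x → 2 / 3 ≤ prob μ C x true) ∧ (¬ HasZero x → 2 / 3 ≤ prob μ C x false)

theorem prob_ind {n : ℕ} {Z Ω : Type} [Fintype Ω] (μ : Ω → ℝ)
    (C : Ω → WordCircuit (Fin n) ℤ Z) (x : Fin n → ℤ) (a : Bool) :
    prob μ C x a = ∑ ω, μ ω * ind ((C ω).answer x = a) := by
  classical
  unfold prob ind
  rw [sum_filter]
  refine sum_congr rfl fun ω _ => ?_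
  by_cases h : (C ω).answer x = a
  · rw [if_pos h, if_pos h, mul_one]
  · rw [if_neg h, if_neg h, mul_zero]

theorem prob_add {n : ℕ} {Z Ω : Type} [Fintype Ω] (μ : Ω → ℝ)
    (C : Ω → WordCircuit (Fin n) ℤ Z) (x : Fin n → ℤ) :
    prob μ C x true + prob μ C x false = ∑ ω, μ ω := by
  classical
  rw [prob_ind, prob_ind, ← sum_add_distrib]
  refine sum_congr rfl fun ω _ => ?_
  unfold ind
  cases (C ω).answer x <;> simp

/-- **The explicit bound.** -/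
theorem zero_explicit {Z Ω : Type} [Fintype Z] [Fintype Ω] {n κ θ b r : ℕ}
    (hn : 40 ≤ n) (hr : 1 ≤ r) (hb : 1 ≤ b)
    (μ : Ω → ℝ) (C : Ω → WordCircuit (Fin n) ℤ Z)
    (hκ : ∀ ω, (C ω).FanIn κ) (hθ : ∀ ω, (C ω).TreewidthLE θ)
    (hL : Fintype.card Z ≤ 2 ^ b) (hR : ∑ ω, μ ω * (C ω).reads ≤ r * (n : ℝ))
    (h : Decides μ C) : n ≤ 2 ^ (272000 * r) * ((κ + 1) * (θ + 1) * b) := by
  obtain ⟨m, hm⟩ : ∃ m, m = (n - 1) / 3 := ⟨_, rfl⟩
  have h1 : 3 * m + 1 ≤ n := by omega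
  have h2 : n ≤ 4 * m := by omega
  have h3 := explicit (blocks n m h1) (A := 16) (κ := κ) (θ := θ) (b := b) (r := r) (by norm_num)
    (by
      rw [Fintype.card_fin, Fintype.card_fin]
      calc n ^ 2 ≤ (4 * m) ^ 2 := Nat.pow_le_pow_left h2 2
        _ = _ := by ring)
    (by rw [Fintype.card_fin, Fintype.card_fin]; omega)
    (by rw [Fintype.card_fin]; omega) hr hb μ h.1 h.2.1 C hκ hθ hL
    (by rw [Fintype.card_fin]; exact hR) false ?_ ?_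
  · rw [Fintype.card_fin] at h3
    have e : 17000 * 16 * r = 272000 * r := by ring
    rwa [e] at h3
  · intro τ x y i hx hy
    rw [← prob_ind]
    have h4 := (h.2.2 _ (isSorted_blocks h1 (by omega) τ x y)).1
      ((hasZero_blocks h1 τ x y).2 ⟨i, hx, hy⟩)
    have h5 := prob_add μ C ((blocks n m h1).inp τ x y)
    rw [h.2.1] at h5
    linarith
  · intro τ x y hxy
    rw [← prob_ind]
    refine (h.2.2 _ (isSorted_blocks h1 (by omega) τ x y)).2 fun h4 => ?_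
    obtain ⟨i, hx, hy⟩ := (hasZero_blocks h1 τ x y).1 h4
    exact Finset.disjoint_left.1 hxy hx hy

/-- **The number of reads.** -/
theorem zero_reads {ε : ℝ} (hε : 0 < ε) : ∀ᶠ n : ℕ in atTop,
    ∀ (Z Ω : Type) [Fintype Z] [Fintype Ω] (κ θ b : ℕ) (μ : Ω → ℝ)
      (C : Ω → WordCircuit (Fin n) ℤ Z), 1 ≤ b →
      (∀ ω, (C ω).FanIn κ) → (∀ ω, (C ω).TreewidthLE θ) → Fintype.card Z ≤ 2 ^ b →
      ((κ + 1) * (θ + 1) * b : ℝ) ≤ (n : ℝ) ^ (1 - ε) → Decides μ C →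
      ε / 544000 * (n * Real.logb 2 n) ≤ ∑ ω, μ ω * (C ω).reads := by
  filter_upwards [reads_bound (A := 16) (by norm_num) hε, eventually_ge_atTop 40] with n h1 h2
  intro Z Ω _ _ κ θ b μ C hb hκ hθ hL hs hd
  have h3 := h1 κ θ b (∑ ω, μ ω * (C ω).reads)
    (sum_nonneg fun ω _ => mul_nonneg (hd.1 ω) (Nat.cast_nonneg _)) hs (by
      intro r hr hR
      have h4 := zero_explicit h2 hr hb μ C hκ hθ hL hR hd
      have e : 17000 * 16 * r = 272000 * r := by ring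
      rw [e]
      exact h4)
  refine le_trans (le_of_eq ?_) h3
  norm_num

end Run7.h156.CX
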